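import Mathlib

namespace Pool.Agent.R99.OrdDim

/-- The order of `L` is the intersection of `k` linear orders. -/
def Realizable (L : Type) [PartialOrder L] (k : ℕ) : Prop :=
  ∃ R : Fin k → L → L → Prop,
    (∀ i, IsLinearOrder L (R i)) ∧ ∀ x y : L, x ≤ y ↔ ∀ i, R i x y

/-- The Dushnik-Miller order dimension. -/
noncomputable def orderDim (L : Type) [PartialOrder L] : ℕ :=
  sInf {k : ℕ | Realizable L k}

/-- Every element has exactly `r` neighbours in the Hasse diagram. -/
def HasseRegular (L : Type) [PartialOrder L] (r : ℕ) : Prop :=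
  ∀ x : L, Set.ncard {y : L | y ⋖ x ∨ x ⋖ y} = r

/-- Semidistributivity. -/
def Semidistributive (L : Type) [Lattice L] : Prop :=
  (∀ x y z : L, x ⊔ y = x ⊔ z → x ⊔ y = x ⊔ (y ⊓ z)) ∧
  (∀ x y z : L, x ⊓ y = x ⊓ z → x ⊓ y = x ⊓ (y ⊔ z))

/-- Day's doubling of the interval `[a, b]` of a poset `P`: the subposet of `P × {0 < 1}`
consisting of the `(x, 0)` with `x ≤ b` and the `(x, 1)` with `¬ x ≤ b` or `a ≤ x`
(level 0 is `false`, level 1 is `true`). -/
@[ext] structure Doubling (P : Type) [PartialOrder P] (a b : P) : Type where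
  pt : P
  lvl : Bool
  low : lvl = false → pt ≤ b
  high : lvl = true → pt ≤ b → a ≤ pt

/-- The order of the doubling is that of the product: coordinatewise. -/
instance (P : Type) [PartialOrder P] (a b : P) : PartialOrder (Doubling P a b) where
  le x y := x.pt ≤ y.pt ∧ (x.lvl = true → y.lvl = true)
  le_refl x := ⟨le_rfl, id⟩
  le_trans x y z h1 h2 := ⟨h1.1.trans h2.1, fun h => h2.2 (h1.2 h)⟩
  le_antisymm x y h1 h2 := by
    apply Doubling.ext (le_antisymm h1.1 h2.1)
    have h3 := h1.2
    have h4 := h2.2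
    revert h3 h4
    cases x.lvl <;> cases y.lvl <;> simp

/-- Congruence uniform: obtained from the one-element lattice by finitely many doublings
of intervals (up to isomorphism). -/
inductive CongruenceUniform : (L : Type) → [PartialOrder L] → Prop
  | point {L : Type} [PartialOrder L] (h : Nonempty (Unique L)) : CongruenceUniform L
  | double {P : Type} [PartialOrder P] (a b : P) (hab : a ≤ b) (hP : CongruenceUniform P)
      {L : Type} [PartialOrder L] (e : L ≃o Doubling P a b) : CongruenceUniform L

section Lat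

variable {P : Type} [Lattice P] {a b : P}

theorem dle_iff {x y : Doubling P a b} :
    x ≤ y ↔ x.pt ≤ y.pt ∧ (x.lvl = true → y.lvl = true) := Iff.rfl

def dsup (x y : Doubling P a b) : Doubling P a b where
  pt := x.pt ⊔ y.pt
  lvl := x.lvl || y.lvl
  low h := by
    simp only [Bool.or_eq_false_iff] at h
    exact sup_le (x.low h.1) (y.low h.2)
  high h h' := by
    simp only [Bool.or_eq_true] at h
    rcases h with h | h
    · exact (x.high h (le_sup_left.trans h')).trans le_sup_left
    · exact (y.high h (le_sup_right.trans h')).trans le_sup_right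

open Classical in
noncomputable def dinf (x y : Doubling P a b) : Doubling P a b where
  pt := x.pt ⊓ y.pt
  lvl := decide (x.lvl = true ∧ y.lvl = true ∧ (x.pt ⊓ y.pt ≤ b → a ≤ x.pt ⊓ y.pt))
  low h := by
    simp only [decide_eq_false_iff_not, not_and, not_forall] at h
    by_cases hx : x.lvl = true
    · by_cases hy : y.lvl = true
      · exact (h hx hy).1
      · exact inf_le_right.trans (y.low (by simpa using hy))
    · exact inf_le_left.trans (x.low (by simpa using hx))
  high h h' := by
    simp only [decide_eq_true_eq] at h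
    exact h.2.2 h'

theorem dinf_lvl (x y : Doubling P a b) : (dinf x y).lvl = true ↔
    (x.lvl = true ∧ y.lvl = true ∧ (x.pt ⊓ y.pt ≤ b → a ≤ x.pt ⊓ y.pt)) := by
  classical
  show decide _ = true ↔ _
  exact decide_eq_true_iff

noncomputable instance dlattice : Lattice (Doubling P a b) :=
  { (inferInstance : PartialOrder (Doubling P a b)) with
    sup := dsup
    inf := dinf
    le_sup_left := fun x y =>
      ⟨le_sup_left, fun h => by show (x.lvl || y.lvl) = true; simp [h]⟩
    le_sup_right := fun x y =>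
      ⟨le_sup_right, fun h => by show (x.lvl || y.lvl) = true; simp [h]⟩
    sup_le := by
      intro x y z hx hy
      refine ⟨sup_le hx.1 hy.1, fun h => ?_⟩
      have h : (x.lvl || y.lvl) = true := h
      simp only [Bool.or_eq_true] at h
      exact h.elim hx.2 hy.2
    inf_le_left := fun x y => ⟨inf_le_left, fun h => ((dinf_lvl x y).1 h).1⟩
    inf_le_right := fun x y => ⟨inf_le_right, fun h => ((dinf_lvl x y).1 h).2.1⟩
    le_inf := by
      intro z x y hx hy
      refine ⟨le_inf hx.1 hy.1, fun h => (dinf_lvl x y).2 ⟨hx.2 h, hy.2 h, fun h' => ?_⟩⟩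
      exact (z.high h ((le_inf hx.1 hy.1).trans h')).trans (le_inf hx.1 hy.1) }

theorem dsup_fst (x y : Doubling P a b) : (x ⊔ y).pt = x.pt ⊔ y.pt := rfl
theorem dsup_snd (x y : Doubling P a b) : (x ⊔ y).lvl = (x.lvl || y.lvl) := rfl
theorem dinf_fst (x y : Doubling P a b) : (x ⊓ y).pt = x.pt ⊓ y.pt := rfl
theorem dinf_snd (x y : Doubling P a b) : (x ⊓ y).lvl = true ↔
    (x.lvl = true ∧ y.lvl = true ∧ (x.pt ⊓ y.pt ≤ b → a ≤ x.pt ⊓ y.pt)) := dinf_lvl x y

theorem dext {x y : Doubling P a b} (h1 : x.pt = y.pt) (h2 : x.lvl = true ↔ y.lvl = true) :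
    x = y := by
  apply Doubling.ext h1
  revert h2
  cases x.lvl <;> cases y.lvl <;> simp

theorem semidistributive_doubling (h : Semidistributive P) :
    Semidistributive (Doubling P a b) := by
  refine ⟨fun x y z hxy => ?_, fun x y z hxy => ?_⟩
  · have h1 : x.pt ⊔ y.pt = x.pt ⊔ z.pt := by
      rw [← dsup_fst, ← dsup_fst, hxy]
    have h2 : (x.lvl || y.lvl) = (x.lvl || z.lvl) := by
      rw [← dsup_snd, ← dsup_snd, hxy]
    have h3 := h.1 _ _ _ h1
    apply dext
    · rw [dsup_fst, dsup_fst, dinf_fst]; exact h3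
    · rw [dsup_snd, dsup_snd]
      simp only [Bool.or_eq_true, dinf_snd]
      constructor
      · intro hh
        by_cases hx : x.lvl = true
        · exact Or.inl hx
        · right
          have hy : y.lvl = true := by tauto
          have hz : z.lvl = true := by
            have : (x.lvl || z.lvl) = true := by rw [← h2]; simp [hy]
            simp only [Bool.or_eq_true] at this
            tauto
          refine ⟨hy, hz, fun hb => ?_⟩
          have hxb : x.pt ≤ b := x.low (by simpa using hx)
          have hs : x.pt ⊔ y.pt ≤ b := by rw [h3]; exact sup_le hxb hb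
          have hyb : y.pt ≤ b := le_sup_right.trans hs
          have hzb : z.pt ≤ b := (le_sup_right (a := x.pt)).trans (by rw [← h1]; exact hs)
          exact le_inf (y.high hy hyb) (z.high hz hzb)
      · rintro (hx | hyz)
        · exact Or.inl hx
        · exact Or.inr hyz.1
  · have h1 : x.pt ⊓ y.pt = x.pt ⊓ z.pt := by
      rw [← dinf_fst, ← dinf_fst, hxy]
    have h2 : ((x ⊓ y).lvl = true) ↔ ((x ⊓ z).lvl = true) := by rw [hxy]
    have h3 := h.2 _ _ _ h1
    rw [dinf_snd, dinf_snd] at h2
    apply dext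
    · rw [dinf_fst, dinf_fst, dsup_fst]; exact h3
    · rw [dinf_snd, dinf_snd, dsup_fst, dsup_snd]
      simp only [Bool.or_eq_true]
      rw [← h3]
      rw [← h1] at h2
      tauto

end Lat

/-! ### Existence of a realizer of a finite poset -/

theorem exists_ext {L : Type} [PartialOrder L] (x y : L) (hxy : ¬ x ≤ y) :
    ∃ s : L → L → Prop, IsLinearOrder L s ∧ (∀ u v : L, u ≤ v → s u v) ∧ ¬ s x y := by
  let r : L → L → Prop := fun u v => u ≤ v ∨ (u ≤ y ∧ x ≤ v)
  have hr : IsPartialOrder L r :=
    { refl := fun u => Or.inl le_rfl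
      trans := by
        rintro u v w (h1 | ⟨h1, h1'⟩) (h2 | ⟨h2, h2'⟩)
        · exact Or.inl (h1.trans h2)
        · exact Or.inr ⟨h1.trans h2, h2'⟩
        · exact Or.inr ⟨h1, h1'.trans h2⟩
        · exact absurd (h1'.trans h2) hxy
      antisymm := by
        rintro u v (h1 | ⟨h1, h1'⟩) (h2 | ⟨h2, h2'⟩)
        · exact le_antisymm h1 h2
        · exact absurd (h2'.trans (h1.trans h2)) hxy
        · exact absurd (h1'.trans (h2.trans h1)) hxy
        · exact absurd (h1'.trans h2) hxy }
  obtain ⟨s, hs, hrs⟩ := extend_partialOrder r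
  refine ⟨s, hs, fun u v h => hrs u v (Or.inl h), fun hc => ?_⟩
  have h1 : s y x := hrs y x (Or.inr ⟨le_rfl, le_rfl⟩)
  have := hs.antisymm x y hc h1
  exact hxy (this ▸ le_rfl)

theorem exists_realizable (L : Type) [PartialOrder L] [Finite L] : ∃ k, Realizable L k := by
  classical
  let I := {p : L × L // ¬ p.1 ≤ p.2}
  obtain ⟨k, ⟨e⟩⟩ := Finite.exists_equiv_fin I
  choose s hs1 hs2 hs3 using fun p : I => exists_ext p.1.1 p.1.2 p.2
  refine ⟨k, fun i => s (e.symm i), fun i => hs1 _, fun x y => ⟨fun h i => hs2 _ _ _ h, fun h => ?_⟩⟩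
  by_contra hc
  have := h (e ⟨(x, y), hc⟩)
  simp only [Equiv.symm_apply_apply] at this
  exact hs3 _ this

end Pool.Agent.R99.OrdDim
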