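import Pool.Agent.R99.OrdDim.Base

namespace Pool.Agent.R99.OrdDim

/-- Bitwise inclusion. -/
def sub (S T : ℕ) : Bool := Nat.beq (Nat.land S T) S

theorem sub_iff {S T : ℕ} : sub S T = true ↔ S &&& T = S := by
  unfold sub
  rw [Nat.beq_eq]
  exact Iff.rfl

theorem sub_refl (S : ℕ) : sub S S = true := by
  rw [sub_iff, Nat.and_self]

theorem sub_trans {S T U : ℕ} (h1 : sub S T = true) (h2 : sub T U = true) : sub S U = true := by
  rw [sub_iff] at *
  calc S &&& U = (S &&& T) &&& U := by rw [h1]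
    _ = S &&& (T &&& U) := Nat.land_assoc ..
    _ = S := by rw [h2, h1]

theorem sub_antisymm {S T : ℕ} (h1 : sub S T = true) (h2 : sub T S = true) : S = T := by
  rw [sub_iff] at *
  rw [← h1, Nat.land_comm, h2]

theorem sub_bit (e f : Bool) (S T : ℕ) :
    sub (2 * S + e.toNat) (2 * T + f.toNat) = true ↔ sub S T = true ∧ (e = true → f = true) := by
  have h1 : ∀ (c : Bool) (U : ℕ), 2 * U + c.toNat = Nat.bit c U := by
    intro c U; cases c <;> simp [Nat.bit]
  rw [h1, h1, sub_iff, sub_iff, Nat.land_bit, ← h1, ← h1]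
  generalize S &&& T = V
  cases e <;> cases f <;> simp
  omega

/-- Codes of the doubling. -/
def next (a b : ℕ) (E : List ℕ) : List ℕ :=
  E.flatMap fun S =>
    if sub a S = true then
      (if sub S b = true then [2 * S, 2 * S + 1] else [2 * S + 1])
    else [2 * S]

/-- `E` is the list of codes of a congruence uniform, semidistributive lattice. -/
def Good (E : List ℕ) : Prop :=
  ∃ (P : Type) (_ : Lattice P) (enc : P → ℕ), CongruenceUniform P ∧ Semidistributive P ∧
    (∀ x y, x ≤ y ↔ sub (enc x) (enc y) = true) ∧ (∀ n, (∃ x, enc x = n) ↔ n ∈ E)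

theorem good_zero : Good [0] := by
  refine ⟨Unit, inferInstance, fun _ => 0, ?_, ?_, ?_, ?_⟩
  · exact CongruenceUniform.point ⟨inferInstance⟩
  · exact ⟨fun _ _ _ _ => rfl, fun _ _ _ _ => rfl⟩
  · intro x y; simp [sub_refl]
  · intro n; simp [eq_comm]

theorem good_next {E : List ℕ} (hE : Good E) {a b : ℕ} (ha : a ∈ E) (hb : b ∈ E)
    (hab : sub a b = true) : Good (next a b E) := by
  classical
  obtain ⟨P, instP, enc, hcu, hsd, hle, hmem⟩ := hE
  obtain ⟨a', rfl⟩ := (hmem a).2 ha
  obtain ⟨b', rfl⟩ := (hmem b).2 hb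
  have hab' : a' ≤ b' := (hle _ _).2 hab
  let enc' : Doubling P a' b' → ℕ := fun x =>
    2 * enc x.pt + (sub (enc a') (enc x.pt) && x.lvl).toNat
  refine ⟨Doubling P a' b', dlattice, enc', ?_, semidistributive_doubling hsd, ?_, ?_⟩
  · exact CongruenceUniform.double a' b' hab' hcu (OrderIso.refl _)
  · intro x y
    rw [sub_bit, ← hle]
    simp only [Bool.and_eq_true, ← hle]
    constructor
    · rintro ⟨h1, h2⟩
      exact ⟨h1, fun h => ⟨h.1.trans h1, h2 h.2⟩⟩
    · rintro ⟨h1, h2⟩
      refine ⟨h1, fun h => ?_⟩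
      by_cases hx : a' ≤ x.pt
      · exact (h2 ⟨hx, h⟩).2
      · by_contra hy
        exact hx (x.high h (h1.trans (y.low (by simpa using hy))))
  · intro n
    unfold next
    rw [List.mem_flatMap]
    constructor
    · rintro ⟨x, rfl⟩
      refine ⟨enc x.pt, (hmem _).1 ⟨_, rfl⟩, ?_⟩
      show 2 * enc x.pt + (sub (enc a') (enc x.pt) && x.lvl).toNat ∈ _
      by_cases h1 : sub (enc a') (enc x.pt) = true
      · rw [if_pos h1]
        by_cases h2 : sub (enc x.pt) (enc b') = true
        · rw [if_pos h2]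
          cases x.lvl <;> simp [h1]
        · rw [if_neg h2]
          have : x.lvl = true := by
            by_contra hc
            exact h2 ((hle _ _).1 (x.low (by simpa using hc)))
          simp [h1, this]
      · rw [if_neg h1]
        simp [h1]
    · rintro ⟨S, hS, hn⟩
      obtain ⟨p, rfl⟩ := (hmem S).2 hS
      by_cases h1 : sub (enc a') (enc p) = true
      · rw [if_pos h1] at hn
        have h1' := (hle _ _).2 h1
        by_cases h2 : sub (enc p) (enc b') = true
        · rw [if_pos h2] at hn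
          have h2' := (hle _ _).2 h2
          simp only [List.mem_cons, List.not_mem_nil, or_false] at hn
          rcases hn with rfl | rfl
          · exact ⟨⟨p, false, fun _ => h2', fun h => by simp at h⟩, by simp [enc']⟩
          · exact ⟨⟨p, true, fun h => by simp at h, fun _ _ => h1'⟩, by simp [enc', h1]⟩
        · rw [if_neg h2] at hn
          simp only [List.mem_cons, List.not_mem_nil, or_false] at hn
          exact ⟨⟨p, true, fun h => by simp at h, fun _ _ => h1'⟩, by simp [enc', h1, hn]⟩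
      · rw [if_neg h1] at hn
        simp only [List.mem_cons, List.not_mem_nil, or_false] at hn
        by_cases h2 : p ≤ b'
        · exact ⟨⟨p, false, fun _ => h2, fun h => by simp at h⟩, by simp [enc', hn]⟩
        · exact ⟨⟨p, true, fun h => by simp at h, fun _ h => absurd h h2⟩, by simp [enc', h1, hn]⟩

/-- Iterated doubling. -/
def build : List (ℕ × ℕ) → List ℕ → List ℕ
  | [], E => E
  | (a, b) :: r, E => build r (next a b E)

/-- The intervals are intervals. -/
def valid : List (ℕ × ℕ) → List ℕ → Bool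
  | [], _ => true
  | (a, b) :: r, E => E.any (fun x => Nat.beq x a) && E.any (fun x => Nat.beq x b) && sub a b &&
      valid r (next a b E)

theorem good_build (r : List (ℕ × ℕ)) : ∀ E, Good E → valid r E = true → Good (build r E) := by
  induction r with
  | nil => intro E h _; exact h
  | cons p r ih =>
    obtain ⟨a, b⟩ := p
    intro E hE hv
    simp only [valid, Bool.and_eq_true, List.any_eq_true, Nat.beq_eq] at hv
    obtain ⟨⟨⟨⟨x, hx, rfl⟩, ⟨y, hy, rfl⟩⟩, hab⟩, hv⟩ := hv
    exact ih _ (good_next hE hx hy hab) hv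

/-! ### Hasse diagram -/

/-- Table check for one element: neighbours above, neighbours below. -/
def chk (E : List ℕ) (t : ℕ × List ℕ × List ℕ) : Bool :=
  (t.2.1.all fun u => E.any (fun x => Nat.beq x u) && sub t.1 u && !(Nat.beq u t.1)) &&
  (t.2.1.all fun u => t.2.1.all fun v => Nat.beq u v || !(sub u v)) &&
  (E.all fun y => !(sub t.1 y) || Nat.beq y t.1 || t.2.1.any fun u => sub u y) &&
  (t.2.2.all fun u => E.any (fun x => Nat.beq x u) && sub u t.1 && !(Nat.beq u t.1)) &&
  (t.2.2.all fun u => t.2.2.all fun v => Nat.beq u v || !(sub u v)) &&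
  (E.all fun y => !(sub y t.1) || Nat.beq y t.1 || t.2.2.any fun u => sub y u) &&
  Nat.beq (t.2.1 ++ t.2.2).length 4 && decide ((t.2.1 ++ t.2.2).Nodup)

theorem hasse_of_chk {P : Type} [Lattice P] (enc : P → ℕ) {E : List ℕ}
    (hle : ∀ x y, x ≤ y ↔ sub (enc x) (enc y) = true) (hmem : ∀ n, (∃ x, enc x = n) ↔ n ∈ E)
    (tab : List (ℕ × List ℕ × List ℕ)) (h1 : tab.map Prod.fst = E)
    (h2 : tab.all (chk E) = true) : HasseRegular P 4 := by
  classical
  have hinj : Function.Injective enc := by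
    intro x y h
    apply le_antisymm
    · rw [hle, h]; exact sub_refl _
    · rw [hle, h]; exact sub_refl _
  have hlt : ∀ x y, x < y ↔ sub (enc x) (enc y) = true ∧ enc y ≠ enc x := by
    intro x y
    rw [lt_iff_le_and_ne, hle]
    constructor
    · rintro ⟨h, h'⟩; exact ⟨h, fun h'' => h' (hinj h''.symm)⟩
    · rintro ⟨h, h'⟩; exact ⟨h, fun h'' => h' (by rw [h''])⟩
  intro x
  have hx : enc x ∈ tab.map Prod.fst := by rw [h1]; exact (hmem _).1 ⟨x, rfl⟩
  rw [List.mem_map] at hx
  obtain ⟨⟨n, us, ds⟩, ht, hn⟩ := hx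
  simp only at hn
  subst hn
  have hc := List.all_eq_true.1 h2 _ ht
  simp only [chk, Bool.and_eq_true, List.all_eq_true, List.any_eq_true, Bool.or_eq_true,
    Bool.not_eq_true', Nat.beq_eq, decide_eq_true_eq] at hc
  obtain ⟨⟨⟨⟨⟨⟨⟨c1, c2⟩, c3⟩, c4⟩, c5⟩, c6⟩, c7⟩, c8⟩ := hc
  have hbeq : ∀ u v : ℕ, (Nat.beq u v = false) → u ≠ v := by
    intro u v h h'
    subst h'
    rw [Nat.beq_refl] at h
    exact absurd h (by decide)
  have up : ∀ y, x ⋖ y ↔ enc y ∈ us := by
    intro y
    constructor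
    · intro h
      have hl := (hlt _ _).1 h.1
      rcases c3 (enc y) ((hmem _).1 ⟨y, rfl⟩) with (h3 | h3) | ⟨u, hu, h3⟩
      · rw [hl.1] at h3; exact absurd h3 (by decide)
      · exact absurd h3 hl.2
      · obtain ⟨⟨⟨w, hw, hwu⟩, h5⟩, h6⟩ := c1 u hu
        obtain ⟨z, rfl⟩ := (hmem w).2 hw
        subst hwu
        have hxz : x < z := (hlt _ _).2 ⟨h5, hbeq _ _ h6⟩
        have hzy : z ≤ y := (hle _ _).2 h3
        rcases hzy.lt_or_eq with hzy | hzy
        · exact absurd hzy (h.2 hxz)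
        · rw [← hzy]; exact hu
    · intro h
      obtain ⟨⟨-, h5⟩, h6⟩ := c1 _ h
      refine ⟨(hlt _ _).2 ⟨h5, hbeq _ _ h6⟩, fun z hxz hzy => ?_⟩
      have hl := (hlt _ _).1 hxz
      rcases c3 (enc z) ((hmem _).1 ⟨z, rfl⟩) with (h3 | h3) | ⟨u, hu, h3⟩
      · rw [hl.1] at h3; exact absurd h3 (by decide)
      · exact absurd h3 hl.2
      · have h7 : sub u (enc y) = true := sub_trans h3 ((hle _ _).1 hzy.le)
        rcases c2 u hu _ h with h8 | h8
        · subst h8
          exact absurd ((hle _ _).2 h3) (not_le_of_gt hzy)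
        · rw [h7] at h8; exact absurd h8 (by decide)
  have dn : ∀ y, y ⋖ x ↔ enc y ∈ ds := by
    intro y
    constructor
    · intro h
      have hl := (hlt _ _).1 h.1
      rcases c6 (enc y) ((hmem _).1 ⟨y, rfl⟩) with (h3 | h3) | ⟨u, hu, h3⟩
      · rw [hl.1] at h3; exact absurd h3 (by decide)
      · exact absurd h3.symm hl.2
      · obtain ⟨⟨⟨w, hw, hwu⟩, h5⟩, h6⟩ := c4 u hu
        obtain ⟨z, rfl⟩ := (hmem w).2 hw
        subst hwu
        have hzx : z < x := (hlt _ _).2 ⟨h5, (hbeq _ _ h6).symm⟩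
        have hyz : y ≤ z := (hle _ _).2 h3
        rcases hyz.lt_or_eq with hyz | hyz
        · exact absurd hzx (h.2 hyz)
        · rw [hyz]; exact hu
    · intro h
      obtain ⟨⟨-, h5⟩, h6⟩ := c4 _ h
      refine ⟨(hlt _ _).2 ⟨h5, (hbeq _ _ h6).symm⟩, fun z hyz hzx => ?_⟩
      have hl := (hlt _ _).1 hzx
      rcases c6 (enc z) ((hmem _).1 ⟨z, rfl⟩) with (h3 | h3) | ⟨u, hu, h3⟩
      · rw [hl.1] at h3; exact absurd h3 (by decide)
      · exact absurd h3.symm hl.2
      · have h7 : sub (enc y) u = true := sub_trans ((hle _ _).1 hyz.le) h3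
        rcases c5 _ h u hu with h8 | h8
        · rw [← h8] at h3
          exact absurd ((hle _ _).2 h3) (not_le_of_gt hyz)
        · rw [h7] at h8; exact absurd h8 (by decide)
  have himg : enc '' {y : P | y ⋖ x ∨ x ⋖ y} = ((us ++ ds).toFinset : Set ℕ) := by
    ext n
    simp only [Set.mem_image, Set.mem_ofPred_eq, List.coe_toFinset, List.mem_append]
    constructor
    · rintro ⟨y, hy | hy, rfl⟩
      · exact Or.inr ((dn y).1 hy)
      · exact Or.inl ((up y).1 hy)
    · rintro (h | h)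
      · obtain ⟨⟨⟨w, hw, rfl⟩, -⟩, -⟩ := c1 n h
        obtain ⟨y, rfl⟩ := (hmem w).2 hw
        exact ⟨y, Or.inr ((up y).2 h), rfl⟩
      · obtain ⟨⟨⟨w, hw, rfl⟩, -⟩, -⟩ := c4 n h
        obtain ⟨y, rfl⟩ := (hmem w).2 hw
        exact ⟨y, Or.inl ((dn y).2 h), rfl⟩
  rw [← Set.ncard_image_of_injective _ hinj, himg, Set.ncard_coe_finset,
    List.toFinset_card_of_nodup c8, c7]

/-! ### Dimension -/

/-- `true` if the critical pairs in the first list cannot be coloured by `4` colours
extending the given partial colouring without a monochromatic alternating `2`-cycle. -/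
def search : List (ℕ × ℕ) → List (ℕ × ℕ × ℕ) → Bool
  | [], _ => false
  | (j, m) :: rest, asg =>
    [0, 1, 2, 3].all fun c =>
      asg.any (fun t => Nat.beq t.2.2 c && sub j t.2.1 && sub t.1 m) ||
        search rest ((j, m, c) :: asg)

theorem search_sound (Gd : ℕ × ℕ → Prop) (f : ℕ × ℕ → ℕ) (hf : ∀ p, Gd p → f p < 4)
    (hfc : ∀ p q, Gd p → Gd q → f p = f q → ¬ (sub p.1 q.2 = true ∧ sub q.1 p.2 = true))
    (rest : List (ℕ × ℕ)) : ∀ asg : List (ℕ × ℕ × ℕ), (∀ p ∈ rest, Gd p) →
      (∀ t ∈ asg, Gd (t.1, t.2.1) ∧ t.2.2 = f (t.1, t.2.1)) → search rest asg = false := by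
  induction rest with
  | nil => intro asg _ _; rfl
  | cons p rest ih =>
    obtain ⟨j, m⟩ := p
    intro asg h1 h2
    rw [Bool.eq_false_iff]
    intro hs
    simp only [search, List.all_eq_true, Bool.or_eq_true, List.any_eq_true, Bool.and_eq_true,
      Nat.beq_eq] at hs
    have hg : Gd (j, m) := h1 _ (by simp)
    have hmem : f (j, m) ∈ [0, 1, 2, 3] := by
      have := hf _ hg
      generalize f (j, m) = v at this
      interval_cases v <;> simp
    rcases hs _ hmem with ⟨t, ht, ⟨h3, h4⟩, h5⟩ | h3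
    · have h6 := h2 t ht
      exact hfc (j, m) (t.1, t.2.1) hg h6.1 (by rw [← h6.2, h3]) ⟨h4, h5⟩
    · rw [ih ((j, m, f (j, m)) :: asg) (fun p hp => h1 p (by simp [hp])) (by
        intro t ht
        rcases List.mem_cons.1 ht with rfl | ht
        · exact ⟨hg, rfl⟩
        · exact h2 t ht)] at h3
      exact absurd h3 (by decide)

theorem dim_of_search {P : Type} [Lattice P] (enc : P → ℕ) {E : List ℕ}
    (hle : ∀ x y, x ≤ y ↔ sub (enc x) (enc y) = true) (hmem : ∀ n, (∃ x, enc x = n) ↔ n ∈ E)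
    (crit : List (ℕ × ℕ))
    (h1 : crit.all (fun p => E.any (fun x => Nat.beq x p.1) && E.any (fun x => Nat.beq x p.2) &&
      !(sub p.1 p.2)) = true)
    (h2 : search crit [] = true) : 4 < orderDim P := by
  classical
  have hinj : Function.Injective enc := by
    intro x y h
    apply le_antisymm
    · rw [hle, h]; exact sub_refl _
    · rw [hle, h]; exact sub_refl _
  have : Finite P := by
    have : Set.range enc ⊆ (E.toFinset : Set ℕ) := by
      rintro _ ⟨x, rfl⟩
      simp only [List.coe_toFinset, Set.mem_ofPred_eq]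
      exact (hmem _).1 ⟨x, rfl⟩
    have hfin : (Set.range enc).Finite := (E.toFinset.finite_toSet).subset this
    have := hfin.to_subtype
    exact Finite.of_injective_finite_range hinj
  have hne : {k : ℕ | Realizable P k}.Nonempty := exists_realizable P
  have hmemS : Realizable P (orderDim P) := Nat.sInf_mem hne
  by_contra hcon
  have hk : orderDim P ≤ 4 := not_lt.1 hcon
  obtain ⟨R, hR1, hR2⟩ := hmemS
  let Gd : ℕ × ℕ → Prop := fun p => ∃ x y : P, enc x = p.1 ∧ enc y = p.2 ∧ ¬ x ≤ y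
  have hch : ∀ p : ℕ × ℕ, ∃ c : ℕ, Gd p → ∃ (hc : c < orderDim P) (x y : P),
      enc x = p.1 ∧ enc y = p.2 ∧ ¬ R ⟨c, hc⟩ x y := by
    intro p
    by_cases hp : Gd p
    · obtain ⟨x, y, hx, hy, hxy⟩ := hp
      rw [hR2] at hxy
      push Not at hxy
      obtain ⟨i, hi⟩ := hxy
      exact ⟨i.1, fun _ => ⟨i.2, x, y, hx, hy, hi⟩⟩
    · exact ⟨0, fun h => absurd h hp⟩
  choose f hf using hch
  have := search_sound Gd f (fun p hp => by
      obtain ⟨hc, -⟩ := hf p hp
      omega) (by
      intro p q hp hq hpq hh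
      obtain ⟨hc1, x, y, hx, hy, hxy⟩ := hf p hp
      obtain ⟨hc2, z, w, hz, hw, hzw⟩ := hf q hq
      have e1 : x ≤ w := by rw [hle, hx, hw]; exact hh.1
      have e2 : z ≤ y := by rw [hle, hz, hy]; exact hh.2
      have hii : (⟨f q, hc2⟩ : Fin (orderDim P)) = ⟨f p, hc1⟩ := by
        apply Fin.ext; exact hpq.symm
      rw [hii] at hzw
      have i1 := (hR2 x w).1 e1 ⟨f p, hc1⟩
      have i2 := (hR2 z y).1 e2 ⟨f p, hc1⟩
      have L := hR1 ⟨f p, hc1⟩
      have i3 : R ⟨f p, hc1⟩ w z := by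
        rcases L.total z w with h | h
        · exact absurd h hzw
        · exact h
      exact hxy (L.trans _ _ _ (L.trans _ _ _ i1 i3) i2)) crit [] (by
      intro p hp
      have h3 := List.all_eq_true.1 h1 p hp
      simp only [Bool.and_eq_true, List.any_eq_true, Nat.beq_eq, Bool.not_eq_true'] at h3
      obtain ⟨⟨⟨u, hu, hu'⟩, ⟨v, hv, hv'⟩⟩, h4⟩ := h3
      obtain ⟨x, hx⟩ := (hmem u).2 hu
      obtain ⟨y, hy⟩ := (hmem v).2 hv
      refine ⟨x, y, hx.trans hu', hy.trans hv', fun hxy => ?_⟩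
      rw [hle, hx, hy, hu', hv', h4] at hxy
      exact absurd hxy (by decide)) (by simp)
  rw [this] at h2
  exact absurd h2 (by decide)

end Pool.Agent.R99.OrdDim
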